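import Pool.Agent.K1H27.VM.Stm

/-!
Job VM-ONE: one point spectrum of multiplication plus compact.
-/

set_option autoImplicit false

namespace K1H48.VM

open MeasureTheory Set Metric Filter Topology
open scoped ENNReal NNReal
open Pool.Agent.K1H27.VM (IsMul S_ONE)

section mul

variable {S : Type} [MeasurableSpace S] {μ : Measure S} {p : ℝ≥0∞} [Fact (1 ≤ p)]

lemma im_norm_le {ψ : S → ℂ} {M : Lp ℂ p μ →L[ℂ] Lp ℂ p μ} (hM : IsMul ψ M) {C : ℝ} (hC0 : 0 ≤ C)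
    (hC : ∀ x, ‖ψ x‖ ≤ C) : ‖M‖ ≤ C := by
  refine M.opNorm_le_bound hC0 fun f => ?_
  refine Lp.norm_le_mul_norm_of_ae_le_mul ?_
  filter_upwards [hM f] with x hx
  rw [hx, norm_mul]
  exact mul_le_mul_of_nonneg_right (hC x) (norm_nonneg _)

lemma exMul {ψ : S → ℂ} (hψ : Measurable ψ) {C : ℝ} (hC : ∀ x, ‖ψ x‖ ≤ C) :
    ∃ M : Lp ℂ p μ →L[ℂ] Lp ℂ p μ, IsMul ψ M := by
  have hmem : ∀ f : Lp ℂ p μ, MemLp (fun x => ψ x * f x) p μ := fun f =>
    (Lp.memLp f).of_le_mul (c := C) (hψ.aestronglyMeasurable.mul (Lp.aestronglyMeasurable f))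
      (Eventually.of_forall fun x => by
        rw [norm_mul]
        exact mul_le_mul_of_nonneg_right (hC x) (norm_nonneg _))
  refine ⟨LinearMap.mkContinuous
    { toFun := fun f => (hmem f).toLp _
      map_add' := fun f g => ?_
      map_smul' := fun c f => ?_ } C fun f => ?_, fun f => ?_⟩
  · apply Lp.ext
    filter_upwards [(hmem (f + g)).coeFn_toLp, Lp.coeFn_add f g, (hmem f).coeFn_toLp, (hmem g).coeFn_toLp,
      Lp.coeFn_add ((hmem f).toLp _) ((hmem g).toLp _)] with x h1 h2 h3 h4 h5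
    rw [h1, h2, h5, Pi.add_apply, Pi.add_apply, h3, h4, mul_add]
  · apply Lp.ext
    filter_upwards [(hmem (c • f)).coeFn_toLp, Lp.coeFn_smul c f, (hmem f).coeFn_toLp,
      Lp.coeFn_smul c ((hmem f).toLp _)] with x h1 h2 h3 h4
    rw [h1, h2, RingHom.id_apply, h4, Pi.smul_apply, Pi.smul_apply, h3, smul_eq_mul, smul_eq_mul]
    ring
  · refine Lp.norm_le_mul_norm_of_ae_le_mul ?_
    filter_upwards [(hmem f).coeFn_toLp] with x hx
    show ‖((hmem f).toLp _ : Lp ℂ p μ) x‖ ≤ _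
    rw [hx, norm_mul]
    exact mul_le_mul_of_nonneg_right (hC x) (norm_nonneg _)
  · exact (hmem f).coeFn_toLp

lemma im_unique {ψ : S → ℂ} {M M' : Lp ℂ p μ →L[ℂ] Lp ℂ p μ} (hM : IsMul ψ M) (hM' : IsMul ψ M') :
    M = M' := by
  ext1 f
  apply Lp.ext
  filter_upwards [hM f, hM' f] with x h1 h2
  rw [h1, h2]

lemma im_mul {ψ ψ' : S → ℂ} {M M' : Lp ℂ p μ →L[ℂ] Lp ℂ p μ} (hM : IsMul ψ M) (hM' : IsMul ψ' M') :
    IsMul (fun x => ψ x * ψ' x) (M * M') := by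
  intro f
  show ⇑(M (M' f)) =ᵐ[μ] _
  filter_upwards [hM (M' f), hM' f] with x h1 h2
  rw [h1, h2, mul_assoc]

lemma im_add {ψ ψ' : S → ℂ} {M M' : Lp ℂ p μ →L[ℂ] Lp ℂ p μ} (hM : IsMul ψ M) (hM' : IsMul ψ' M') :
    IsMul (fun x => ψ x + ψ' x) (M + M') := by
  intro f
  show ⇑(M f + M' f) =ᵐ[μ] _
  filter_upwards [hM f, hM' f, Lp.coeFn_add (M f) (M' f)] with x h1 h2 h3
  rw [h3, Pi.add_apply, h1, h2, add_mul]

lemma im_sub {ψ ψ' : S → ℂ} {M M' : Lp ℂ p μ →L[ℂ] Lp ℂ p μ} (hM : IsMul ψ M) (hM' : IsMul ψ' M') :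
    IsMul (fun x => ψ x - ψ' x) (M - M') := by
  intro f
  show ⇑(M f - M' f) =ᵐ[μ] _
  filter_upwards [hM f, hM' f, Lp.coeFn_sub (M f) (M' f)] with x h1 h2 h3
  rw [h3, Pi.sub_apply, h1, h2, sub_mul]

lemma im_const (c : ℂ) : IsMul (fun _ : S => c) (c • (1 : Lp ℂ p μ →L[ℂ] Lp ℂ p μ)) := by
  intro f
  show ⇑(c • f) =ᵐ[μ] _
  filter_upwards [Lp.coeFn_smul c f] with x h1
  rw [h1, Pi.smul_apply, smul_eq_mul]

lemma im_congr {ψ ψ' : S → ℂ} {M : Lp ℂ p μ →L[ℂ] Lp ℂ p μ} (hM : IsMul ψ M) (h : ∀ x, ψ x = ψ' x) :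
    IsMul ψ' M := by
  have : ψ = ψ' := funext h
  rwa [← this]

/-- the indicator function -/
noncomputable def ind (E : Set S) (x : S) : ℂ := E.indicator (fun _ => (1 : ℂ)) x

lemma ind_meas {E : Set S} (hE : MeasurableSet E) : Measurable (ind E) :=
  measurable_const.indicator hE

omit [MeasurableSpace S] in
lemma ind_of_mem {E : Set S} {x : S} (h : x ∈ E) : ind E x = 1 := indicator_of_mem h _

omit [MeasurableSpace S] in
lemma ind_of_not {E : Set S} {x : S} (h : x ∉ E) : ind E x = 0 := indicator_of_notMem h _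

omit [MeasurableSpace S] in
lemma ind_le (E : Set S) (x : S) : ‖ind E x‖ ≤ 1 := by
  by_cases h : x ∈ E
  · rw [ind_of_mem h, norm_one]
  · rw [ind_of_not h, norm_zero]; exact zero_le_one

/-- near a point of the resolvent set the projections are compact -/
lemma near {φ : S → ℂ} {N K : Lp ℂ p μ →L[ℂ] Lp ℂ p μ} (hφ : Measurable φ) (hN : IsMul φ N)
    (hK : IsCompactOperator K) {z : ℂ} (hz : z ∉ spectrum ℂ (N + K)) : ∃ η : ℝ, 0 < η ∧
    ∀ E : Set S, MeasurableSet E → (∀ x ∈ E, ‖φ x - z‖ < η) →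
      ∀ P : Lp ℂ p μ →L[ℂ] Lp ℂ p μ, IsMul (ind E) P → IsCompactOperator P := by
  rw [spectrum.notMem_iff] at hz
  obtain ⟨u, hu⟩ := hz
  obtain ⟨R, hR⟩ : ∃ R : Lp ℂ p μ →L[ℂ] Lp ℂ p μ, R = -((u⁻¹ : (Lp ℂ p μ →L[ℂ] Lp ℂ p μ)ˣ) :
    Lp ℂ p μ →L[ℂ] Lp ℂ p μ) := ⟨_, rfl⟩
  have hRT : R * (N + K - z • (1 : Lp ℂ p μ →L[ℂ] Lp ℂ p μ)) = 1 := by
    have h1 : N + K - z • (1 : Lp ℂ p μ →L[ℂ] Lp ℂ p μ) = -(u : Lp ℂ p μ →L[ℂ] Lp ℂ p μ) := by
      rw [hu, Algebra.algebraMap_eq_smul_one]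
      abel
    rw [h1, hR, neg_mul_neg, u.inv_mul]
  obtain ⟨η, hη⟩ : ∃ η : ℝ, η = 1 / (2 * (‖R‖ + 1)) := ⟨_, rfl⟩
  have hR0 : 0 ≤ ‖R‖ := R.opNorm_nonneg
  have hη0 : 0 < η := by rw [hη]; positivity
  have hRη : ‖R‖ * η < 1 := by
    rw [hη, mul_one_div, div_lt_one (by positivity)]
    linarith
  refine ⟨η, hη0, fun E hE hEφ P hP => ?_⟩
  -- the small multiplication
  obtain ⟨M, hM⟩ : ∃ M : Lp ℂ p μ →L[ℂ] Lp ℂ p μ, M = (N - z • (1 : Lp ℂ p μ →L[ℂ] Lp ℂ p μ)) * P := ⟨_, rfl⟩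
  have hMm : IsMul (fun x => (φ x - z) * ind E x) M := by
    rw [hM]
    exact im_mul (im_sub hN (im_const z)) hP
  have hMn : ‖M‖ ≤ η := by
    refine im_norm_le hMm hη0.le fun x => ?_
    by_cases hx : x ∈ E
    · rw [ind_of_mem hx, mul_one]
      exact (hEφ x hx).le
    · rw [ind_of_not hx, mul_zero, norm_zero]
      exact hη0.le
  have hMP : M * P = M := by
    refine im_unique (im_mul hMm hP) (im_congr hMm fun x => ?_)
    by_cases hx : x ∈ E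
    · rw [ind_of_mem hx, mul_one, mul_one]
    · rw [ind_of_not hx, mul_zero, mul_zero]
  have h1 : P = R * M + R * K * P := by
    calc P = R * (N + K - z • (1 : Lp ℂ p μ →L[ℂ] Lp ℂ p μ)) * P := by rw [hRT, one_mul]
      _ = R * M + R * K * P := by
        rw [hM, mul_assoc, mul_assoc, ← mul_add]
        congr 1
        rw [← add_mul]
        congr 1
        abel
  have h2 : (1 - R * M) * P = R * K * P := by
    rw [sub_mul, one_mul, mul_assoc R M P, hMP]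
    nth_rewrite 1 [h1]
    abel
  have h3 : ‖R * M‖ < 1 := by
    calc ‖R * M‖ ≤ ‖R‖ * ‖M‖ := norm_mul_le _ _
      _ ≤ ‖R‖ * η := mul_le_mul_of_nonneg_left hMn hR0
      _ < 1 := hRη
  have h4 : IsUnit (1 - R * M) := isUnit_one_sub_of_norm_lt_one h3
  obtain ⟨w, hw⟩ := h4
  have h5 : P = ((w⁻¹ : (Lp ℂ p μ →L[ℂ] Lp ℂ p μ)ˣ) : Lp ℂ p μ →L[ℂ] Lp ℂ p μ) * R * K * P := by
    calc P = ((w⁻¹ : (Lp ℂ p μ →L[ℂ] Lp ℂ p μ)ˣ) : Lp ℂ p μ →L[ℂ] Lp ℂ p μ) * ((1 - R * M) * P) := by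
          rw [← mul_assoc, ← hw, w.inv_mul, one_mul]
      _ = _ := by rw [h2]; simp only [mul_assoc]
  rw [h5]
  exact (hK.clm_comp (((w⁻¹ : (Lp ℂ p μ →L[ℂ] Lp ℂ p μ)ˣ) : Lp ℂ p μ →L[ℂ] Lp ℂ p μ) * R)).comp_clm P

end mul

theorem t_ONE : S_ONE := by
  intro S _ μ _ p _ φ hφ hφb N K c hN hK hspec
  obtain ⟨M₀, hM₀⟩ := hφb
  -- the projections onto the compact sets away from `c`
  have hcomp : ∀ s : Set ℂ, IsCompact s → c ∉ s → ∃ B : Set ℂ, MeasurableSet B ∧ s ⊆ B ∧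
      ∀ E : Set S, MeasurableSet E → (∀ x ∈ E, φ x ∈ B) →
        ∀ P : Lp ℂ p μ →L[ℂ] Lp ℂ p μ, IsMul (ind E) P → IsCompactOperator P := by
    intro s hs hcs
    refine hs.induction_on (p := fun s => ∃ B : Set ℂ, MeasurableSet B ∧ s ⊆ B ∧
      ∀ E : Set S, MeasurableSet E → (∀ x ∈ E, φ x ∈ B) →
        ∀ P : Lp ℂ p μ →L[ℂ] Lp ℂ p μ, IsMul (ind E) P → IsCompactOperator P) ?_ ?_ ?_ ?_
    · refine ⟨∅, MeasurableSet.empty, Subset.rfl, fun E _ hEB P hP => ?_⟩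
      have h0 : P = 0 := by
        refine im_unique hP fun f => ?_
        show ⇑(0 : Lp ℂ p μ) =ᵐ[μ] _
        filter_upwards [Lp.coeFn_zero ℂ p μ] with x hx
        rw [hx, ind_of_not (fun h => (hEB x h).elim), zero_mul, Pi.zero_apply]
      rw [h0]
      exact isCompactOperator_zero
    · rintro s t hst ⟨B, h1, h2, h3⟩
      exact ⟨B, h1, hst.trans h2, h3⟩
    · rintro s t ⟨B, h1, h2, h3⟩ ⟨B', h1', h2', h3'⟩
      refine ⟨B ∪ B', h1.union h1', union_subset_union h2 h2', fun E hE hEB P hP => ?_⟩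
      have hE1 : MeasurableSet (E ∩ φ ⁻¹' B) := hE.inter (hφ h1)
      have hE2 : MeasurableSet (E \ φ ⁻¹' B) := hE.diff (hφ h1)
      obtain ⟨P1, hP1⟩ := exMul (p := p) (μ := μ) (ind_meas hE1) (ind_le _)
      obtain ⟨P2, hP2⟩ := exMul (p := p) (μ := μ) (ind_meas hE2) (ind_le _)
      have e : P = P1 + P2 := by
        refine im_unique hP (im_congr (im_add hP1 hP2) fun x => ?_)
        by_cases hx : x ∈ E
        · by_cases hx' : x ∈ φ ⁻¹' B
          · rw [ind_of_mem hx, ind_of_mem (E := E ∩ φ ⁻¹' B) ⟨hx, hx'⟩,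
              ind_of_not (E := E \ φ ⁻¹' B) (fun h => h.2 hx'), add_zero]
          · rw [ind_of_mem hx, ind_of_not (E := E ∩ φ ⁻¹' B) (fun h => hx' h.2),
              ind_of_mem (E := E \ φ ⁻¹' B) ⟨hx, hx'⟩, zero_add]
        · rw [ind_of_not hx, ind_of_not (E := E ∩ φ ⁻¹' B) (fun h => hx h.1),
            ind_of_not (E := E \ φ ⁻¹' B) (fun h => hx h.1), add_zero]
      rw [e]
      refine (h3 _ hE1 (fun x hx => hx.2) P1 hP1).add (h3' _ hE2 (fun x hx => ?_) P2 hP2)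
      exact (hEB x hx.1).resolve_left hx.2
    · intro z hz
      have hz' : z ∉ spectrum ℂ (N + K) := by
        rw [hspec, mem_singleton_iff]
        rintro rfl
        exact hcs hz
      obtain ⟨η, hη, h⟩ := near hφ hN hK hz'
      refine ⟨ball z η, mem_nhdsWithin_of_mem_nhds (ball_mem_nhds z hη), ball z η, measurableSet_ball,
        Subset.rfl, fun E hE hEB P hP => h E hE (fun x hx => ?_) P hP⟩
      have := hEB x hx
      rwa [mem_ball, dist_eq_norm] at this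
  -- `N - c` is compact
  have hNc : IsCompactOperator (N - c • (1 : Lp ℂ p μ →L[ℂ] Lp ℂ p μ)) := by
    have hcl : IsClosed {f : Lp ℂ p μ →L[ℂ] Lp ℂ p μ | IsCompactOperator f} :=
      isClosed_setOfPred_isCompactOperator
    have hmem : (N - c • (1 : Lp ℂ p μ →L[ℂ] Lp ℂ p μ)) ∈
        closure {f : Lp ℂ p μ →L[ℂ] Lp ℂ p μ | IsCompactOperator f} := by
      rw [Metric.mem_closure_iff]
      intro ε hε
      obtain ⟨s, hs⟩ : ∃ s : Set ℂ, s = closedBall 0 M₀ \ ball c (ε / 2) := ⟨_, rfl⟩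
      have hsc : IsCompact s := by rw [hs]; exact (isCompact_closedBall 0 M₀).diff isOpen_ball
      have hcs : c ∉ s := by
        rw [hs]
        intro h
        exact h.2 (mem_ball_self (by positivity))
      obtain ⟨B, hB, hsB, h⟩ := hcomp s hsc hcs
      have hsm : MeasurableSet s := hsc.isClosed.measurableSet
      have hE : MeasurableSet (φ ⁻¹' s) := hφ hsm
      obtain ⟨P, hP⟩ := exMul (p := p) (μ := μ) (ind_meas hE) (ind_le _)
      have hPc := h _ hE (fun x hx => hsB hx) P hP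
      refine ⟨(N - c • (1 : Lp ℂ p μ →L[ℂ] Lp ℂ p μ)) * P, hPc.clm_comp (N - c • (1 : Lp ℂ p μ →L[ℂ] Lp ℂ p μ)), ?_⟩
      rw [dist_eq_norm]
      have hm : IsMul (fun x => (φ x - c) - (φ x - c) * ind (φ ⁻¹' s) x)
          ((N - c • (1 : Lp ℂ p μ →L[ℂ] Lp ℂ p μ)) - (N - c • (1 : Lp ℂ p μ →L[ℂ] Lp ℂ p μ)) * P) :=
        im_sub (im_sub hN (im_const c)) (im_mul (im_sub hN (im_const c)) hP)
      refine (im_norm_le hm (by positivity : 0 ≤ ε / 2) fun x => ?_).trans_lt (by linarith)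
      by_cases hx : x ∈ φ ⁻¹' s
      · rw [ind_of_mem hx, mul_one, sub_self, norm_zero]
        positivity
      · rw [ind_of_not hx, mul_zero, sub_zero]
        have h1 : φ x ∉ s := hx
        rw [hs] at h1
        by_contra hcon
        apply h1
        refine ⟨by rw [mem_closedBall_zero_iff]; exact hM₀ x, ?_⟩
        intro h2
        rw [mem_ball, dist_eq_norm] at h2
        exact hcon h2.le
    rw [hcl.closure_eq] at hmem
    exact hmem
  have e : N + K - c • (1 : Lp ℂ p μ →L[ℂ] Lp ℂ p μ) = (N - c • (1 : Lp ℂ p μ →L[ℂ] Lp ℂ p μ)) + K := by abel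
  rw [e]
  exact hNc.add hK

end K1H48.VM
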