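import Pool.Agent.K1H27.VM.Stm

/-!
Job VM-DUAL: two spectral points from integrated local resolvents, Banach space version.
-/

set_option autoImplicit false

namespace K1H48.VM

open Set Metric Filter Topology
open Pool.Agent.K1H27.VM (HasHyp LocRes S_DUAL)

section basics

variable {E : Type} [NormedAddCommGroup E] [NormedSpace ℂ E]

lemma hyp_of_eigen {T : E →L[ℂ] E} {z : ℂ} {f : E} (hf : f ≠ 0) (hT : T f = z • f)
    (hs : ∀ c : ℂ, T ≠ c • (1 : E →L[ℂ] E)) : HasHyp T := by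
  refine ⟨LinearMap.ker ((T - z • (1 : E →L[ℂ] E) : E →L[ℂ] E) : E →ₗ[ℂ] E),
    (T - z • (1 : E →L[ℂ] E)).isClosed_ker, ?_, ?_, ?_⟩
  · intro h
    have h1 : f ∈ LinearMap.ker ((T - z • (1 : E →L[ℂ] E) : E →L[ℂ] E) : E →ₗ[ℂ] E) := by
      rw [LinearMap.mem_ker]
      show T f - z • f = 0
      rw [hT, sub_self]
    rw [h, Submodule.mem_bot] at h1
    exact hf h1
  · intro h
    apply hs z
    ext y
    have h1 : y ∈ LinearMap.ker ((T - z • (1 : E →L[ℂ] E) : E →L[ℂ] E) : E →ₗ[ℂ] E) := by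
      rw [h]; trivial
    rw [LinearMap.mem_ker] at h1
    have h2 : T y - z • y = 0 := h1
    show T y = z • y
    exact sub_eq_zero.1 h2
  · intro Q hQ x hx
    rw [LinearMap.mem_ker] at hx ⊢
    have h2 : T x - z • x = 0 := hx
    show T (Q x) - z • Q x = 0
    have h3 : T (Q x) = Q (T x) := (congrArg (fun L : E →L[ℂ] E => L x) hQ).symm
    rw [h3, ← map_smul, ← map_sub, h2, map_zero]

lemma hyp_of_range {T : E →L[ℂ] E} {z : ℂ}
    (hd : closure (range fun y => z • y - T y) ≠ univ)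
    (hs : ∀ c : ℂ, T ≠ c • (1 : E →L[ℂ] E)) : HasHyp T := by
  obtain ⟨S, hS⟩ : ∃ S : E →L[ℂ] E, S = z • (1 : E →L[ℂ] E) - T := ⟨_, rfl⟩
  have hSv : ∀ y, S y = z • y - T y := fun y => by rw [hS]; rfl
  have hcl : ((LinearMap.range (S : E →ₗ[ℂ] E)).topologicalClosure : Set E) =
      closure (range fun y => z • y - T y) := by
    rw [Submodule.topologicalClosure_coe]
    congr 1
    ext x
    constructor
    · rintro ⟨y, hy⟩
      exact ⟨y, (hSv y).symm.trans hy⟩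
    · rintro ⟨y, hy⟩
      exact ⟨y, (hSv y).trans hy⟩
  refine ⟨(LinearMap.range (S : E →ₗ[ℂ] E)).topologicalClosure,
    Submodule.isClosed_topologicalClosure _, ?_, ?_, ?_⟩
  · intro h
    apply hs z
    ext y
    have h1 : S y ∈ (LinearMap.range (S : E →ₗ[ℂ] E)).topologicalClosure :=
      Submodule.le_topologicalClosure _ ⟨y, rfl⟩
    rw [h, Submodule.mem_bot, hSv, sub_eq_zero] at h1
    exact h1.symm
  · intro h
    apply hd
    rw [← hcl, h]
    rfl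
  · intro Q hQ x hx
    have hx' : x ∈ closure (range fun y => z • y - T y) := by rw [← hcl]; exact hx
    have h2 : Q x ∈ closure (range fun y => z • y - T y) := by
      refine map_mem_closure Q.continuous hx' ?_
      rintro _ ⟨y, rfl⟩
      refine ⟨Q y, ?_⟩
      have h5 : T (Q y) = Q (T y) := (congrArg (fun L : E →L[ℂ] E => L y) hQ).symm
      show z • Q y - T (Q y) = Q (z • y - T y)
      rw [map_sub, map_smul, h5]
    rw [← hcl] at h2
    exact h2

/-- a point of the spectrum of an operator without eigenvectors -/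
lemma not_surj [CompleteSpace E] {T : E →L[ℂ] E} (he : ∀ (z : ℂ) (f : E), T f = z • f → f = 0) {c : ℂ}
    (hc : c ∈ spectrum ℂ T) : ∃ x, ∀ y, c • y - T y ≠ x := by
  by_contra hcon
  push Not at hcon
  apply hc
  rw [spectrum.mem_resolventSet_iff, ContinuousLinearMap.isUnit_iff_bijective]
  have hval : ∀ y, (algebraMap ℂ (E →L[ℂ] E) c - T) y = c • y - T y := by
    intro y
    rw [Algebra.algebraMap_eq_smul_one]
    rfl
  constructor
  · rw [injective_iff_map_eq_zero]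
    intro y hy
    rw [hval, sub_eq_zero] at hy
    exact he c y hy.symm
  · intro x
    obtain ⟨y, hy⟩ := hcon x
    exact ⟨y, (hval y).trans hy⟩

/-- the vectors `Q x`, `Q` in the commutant -/
def V0 (T : E →L[ℂ] E) (x : E) : Submodule ℂ E where
  carrier := {y | ∃ Q : E →L[ℂ] E, Q * T = T * Q ∧ Q x = y}
  add_mem' := by
    rintro _ _ ⟨Q, hQ, rfl⟩ ⟨Q', hQ', rfl⟩
    exact ⟨Q + Q', by rw [add_mul, mul_add, hQ, hQ'], rfl⟩
  zero_mem' := ⟨0, by rw [zero_mul, mul_zero], rfl⟩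
  smul_mem' := by
    rintro c _ ⟨Q, hQ, rfl⟩
    exact ⟨c • Q, by rw [smul_mul_assoc, mul_smul_comm, hQ], rfl⟩

theorem V0_inv {T : E →L[ℂ] E} {x : E} {Q : E →L[ℂ] E} (hQ : Q * T = T * Q) {y : E} (hy : y ∈ V0 T x) :
    Q y ∈ V0 T x := by
  obtain ⟨Q', hQ', rfl⟩ := hy
  exact ⟨Q * Q', by rw [mul_assoc, hQ', ← mul_assoc, hQ, mul_assoc], rfl⟩

end basics

theorem zero_of {x K ρ δ : ℝ} (hδ : 0 < δ) (hρ : 0 ≤ ρ) (h : ρ < δ) (hx : 0 ≤ x)
    (hb : ∀ n : ℕ, δ ^ n * x ≤ K * ρ ^ n) : x = 0 := by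
  have h1 : ∀ n : ℕ, x ≤ K * (ρ / δ) ^ n := by
    intro n
    have h2 := hb n
    rw [div_pow, ← mul_div_assoc, le_div_iff₀ (pow_pos hδ n), mul_comm]
    exact h2
  have h3 : Tendsto (fun n : ℕ => K * (ρ / δ) ^ n) atTop (𝓝 (K * 0)) :=
    (tendsto_pow_atTop_nhds_zero_of_lt_one (div_nonneg hρ hδ.le) ((div_lt_one hδ).2 h)).const_mul K
  rw [mul_zero] at h3
  exact le_antisymm (ge_of_tendsto' h3 h1) hx

/-- vectors with disjoint local spectra annihilate each other -/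
theorem ann {E F : Type} [NormedAddCommGroup E] [NormedSpace ℂ E]
    [NormedAddCommGroup F] [NormedSpace ℂ F] (B : F →L[ℂ] E →L[ℂ] ℂ) (T : E →L[ℂ] E) (T' : F →L[ℂ] F)
    (hB0 : ∀ g, B g = 0 → g = 0) (hBT : ∀ g f, B (T' g) f = B g (T f)) {c₁ c₂ : ℂ} {r₁ r₂ C₁ C₂ : ℝ}
    {X : ℕ → E} {Y : ℕ → F} (hr1 : 0 < r₁) (hr2 : 0 < r₂) (hr : r₁ + r₂ < ‖c₁ - c₂‖)
    (hX : ∀ n, T (X n) - c₁ • X n = X (n + 1)) (hXb : ∀ n, ‖X n‖ ≤ C₁ * r₁ ^ n)
    (hY : ∀ n, T' (Y n) - c₂ • Y n = Y (n + 1)) (hYb : ∀ n, ‖Y n‖ ≤ C₂ * r₂ ^ n)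
    (hX0 : X 0 ≠ 0) (hY0 : Y 0 ≠ 0) : HasHyp T := by
  have horth : ∀ Q : E →L[ℂ] E, Q * T = T * Q → B (Y 0) (Q (X 0)) = 0 := by
    intro Q hQ
    have hrec : ∀ a b, B (Y (b + 1)) (Q (X a)) - B (Y b) (Q (X (a + 1))) =
        (c₁ - c₂) * B (Y b) (Q (X a)) := by
      intro a b
      have e1 : Q (T (X a)) = T (Q (X a)) := congrArg (fun R : E →L[ℂ] E => R (X a)) hQ
      rw [← hX a, ← hY b, map_sub, map_smul, map_sub Q, map_smul Q, map_sub (B (Y b)), map_smul (B (Y b)), e1]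
      rw [sub_apply, smul_apply, hBT, smul_eq_mul, smul_eq_mul]
      ring
    have hC1 : 0 ≤ C₁ := by
      have := (norm_nonneg _).trans (hXb 0)
      simpa using this
    have hC2 : 0 ≤ C₂ := by
      have := (norm_nonneg _).trans (hYb 0)
      simpa using this
    have hbd : ∀ n a b : ℕ, ‖c₁ - c₂‖ ^ n * ‖B (Y b) (Q (X a))‖ ≤
        ‖B‖ * ‖Q‖ * C₁ * C₂ * (r₁ + r₂) ^ n * (r₁ ^ a * r₂ ^ b) := by
      intro n
      induction n with
      | zero =>
        intro a b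
        have h1 : ‖B (Y b) (Q (X a))‖ ≤ ‖B‖ * ‖Y b‖ * (‖Q‖ * ‖X a‖) :=
          (B.le_opNorm₂ (Y b) (Q (X a))).trans
            (mul_le_mul_of_nonneg_left (Q.le_opNorm _) (by positivity))
        have h2 : ‖B‖ * ‖Y b‖ * (‖Q‖ * ‖X a‖) ≤ ‖B‖ * (C₂ * r₂ ^ b) * (‖Q‖ * (C₁ * r₁ ^ a)) := by
          refine mul_le_mul (mul_le_mul_of_nonneg_left (hYb b) B.opNorm_nonneg)
            (mul_le_mul_of_nonneg_left (hXb a) (norm_nonneg _)) (by positivity) (by positivity)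
        rw [pow_zero, one_mul, pow_zero, mul_one]
        refine (h1.trans h2).trans (le_of_eq (by ring))
      | succ n ih =>
        intro a b
        have h1 := ih a (b + 1)
        have h2 := ih (a + 1) b
        have h3 : ‖c₁ - c₂‖ * ‖B (Y b) (Q (X a))‖ ≤
            ‖B (Y (b + 1)) (Q (X a))‖ + ‖B (Y b) (Q (X (a + 1)))‖ := by
          rw [← norm_mul, ← hrec a b]
          exact norm_sub_le _ _
        calc ‖c₁ - c₂‖ ^ (n + 1) * ‖B (Y b) (Q (X a))‖
            = ‖c₁ - c₂‖ ^ n * (‖c₁ - c₂‖ * ‖B (Y b) (Q (X a))‖) := by ring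
          _ ≤ ‖c₁ - c₂‖ ^ n * (‖B (Y (b + 1)) (Q (X a))‖ + ‖B (Y b) (Q (X (a + 1)))‖) :=
              mul_le_mul_of_nonneg_left h3 (by positivity)
          _ ≤ ‖B‖ * ‖Q‖ * C₁ * C₂ * (r₁ + r₂) ^ n * (r₁ ^ a * r₂ ^ (b + 1)) +
              ‖B‖ * ‖Q‖ * C₁ * C₂ * (r₁ + r₂) ^ n * (r₁ ^ (a + 1) * r₂ ^ b) := by
              rw [mul_add]
              exact add_le_add h1 h2
          _ = _ := by ring
    have h0 := zero_of (x := ‖B (Y 0) (Q (X 0))‖) (K := ‖B‖ * ‖Q‖ * C₁ * C₂) (ρ := r₁ + r₂)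
      (δ := ‖c₁ - c₂‖) (lt_of_le_of_lt (by positivity) hr) (by positivity) hr (norm_nonneg _)
      (fun n => by simpa using hbd n 0 0)
    exact norm_eq_zero.1 h0
  refine ⟨(V0 T (X 0)).topologicalClosure, Submodule.isClosed_topologicalClosure _, ?_, ?_, ?_⟩
  · intro h
    have h1 : X 0 ∈ (V0 T (X 0)).topologicalClosure :=
      Submodule.le_topologicalClosure _ ⟨1, by rw [one_mul, mul_one], rfl⟩
    rw [h, Submodule.mem_bot] at h1
    exact hX0 h1
  · intro h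
    apply hY0
    apply hB0
    ext y
    have h1 : y ∈ (V0 T (X 0)).topologicalClosure := by rw [h]; exact Submodule.mem_top
    have h2 : ((V0 T (X 0)).topologicalClosure : Set E) ⊆ {y | B (Y 0) y = 0} := by
      rw [Submodule.topologicalClosure_coe]
      refine closure_minimal ?_ (isClosed_eq (B (Y 0)).continuous continuous_const)
      rintro _ ⟨Q, hQ, rfl⟩
      exact horth Q hQ
    exact h2 h1
  · intro Q hQ x hx
    have h1 : x ∈ closure ((V0 T (X 0)) : Set E) := by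
      rw [← Submodule.topologicalClosure_coe]; exact hx
    have h2 : Q x ∈ closure ((V0 T (X 0)) : Set E) :=
      map_mem_closure Q.continuous h1 fun y hy => V0_inv hQ hy
    rw [← Submodule.topologicalClosure_coe] at h2
    exact h2

/-- the transposed operator has a point outside the range -/
lemma not_surj' {E F : Type} [NormedAddCommGroup E] [NormedSpace ℂ E] [CompleteSpace E]
    [NormedAddCommGroup F] [NormedSpace ℂ F] [CompleteSpace F] (B : F →L[ℂ] E →L[ℂ] ℂ)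
    (T : E →L[ℂ] E) (T' : F →L[ℂ] F) (hB0 : ∀ g, B g = 0 → g = 0)
    (hBn : ∀ f : E, ∃ g : F, ‖g‖ ≤ 1 ∧ B g f = ((‖f‖ : ℝ) : ℂ)) (hBT : ∀ g f, B (T' g) f = B g (T f))
    (he : ∀ (z : ℂ) (f : E), T f = z • f → f = 0) {c : ℂ} (hc : c ∈ spectrum ℂ T)
    (hd : closure (range fun y => c • y - T y) = univ) : ∃ x, ∀ y, c • y - T' y ≠ x := by
  by_contra hcon
  push Not at hcon
  obtain ⟨S, hS⟩ : ∃ S : E →L[ℂ] E, S = c • (1 : E →L[ℂ] E) - T := ⟨_, rfl⟩
  have hSv : ∀ y, S y = c • y - T y := fun y => by rw [hS]; rfl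
  obtain ⟨S', hS'⟩ : ∃ S' : F →L[ℂ] F, S' = c • (1 : F →L[ℂ] F) - T' := ⟨_, rfl⟩
  have hSv' : ∀ y, S' y = c • y - T' y := fun y => by rw [hS']; rfl
  have hBS : ∀ g f, B (S' g) f = B g (S f) := by
    intro g f
    rw [hSv, hSv', map_sub, map_smul, sub_apply, smul_apply, hBT,
      map_sub, map_smul]
  have hbij : Function.Bijective S' := by
    constructor
    · rw [injective_iff_map_eq_zero]
      intro g hg
      apply hB0
      ext f
      have h2 : closure (range fun y => c • y - T y) ⊆ {y | B g y = 0} := by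
        refine closure_minimal ?_ (isClosed_eq (B g).continuous continuous_const)
        rintro _ ⟨y, rfl⟩
        show B g (c • y - T y) = 0
        rw [← hSv, ← hBS, hg, map_zero]
        rfl
      rw [hd] at h2
      exact h2 (mem_univ f)
    · intro x
      obtain ⟨y, hy⟩ := hcon x
      exact ⟨y, (hSv' y).trans hy⟩
  obtain ⟨u, hu⟩ := ContinuousLinearMap.isUnit_iff_bijective.2 hbij
  obtain ⟨R, hR⟩ : ∃ R : F →L[ℂ] F, R = ((u⁻¹ : (F →L[ℂ] F)ˣ) : F →L[ℂ] F) := ⟨_, rfl⟩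
  have hSR : ∀ g, S' (R g) = g := by
    intro g
    have h1 : S' * R = 1 := by rw [← hu, hR]; exact u.mul_inv
    exact congrArg (fun L : F →L[ℂ] F => L g) h1
  obtain ⟨K, hK⟩ : ∃ K : NNReal, (K : ℝ) = ‖B‖ * ‖R‖ := ⟨⟨‖B‖ * ‖R‖, by positivity⟩, rfl⟩
  have hlow : ∀ f, ‖f‖ ≤ K * ‖S f‖ := by
    intro f
    obtain ⟨g, hg1, hg2⟩ := hBn f
    have h1 : ‖f‖ = ‖B g f‖ := by rw [hg2, Complex.norm_real, norm_norm]
    rw [h1]
    conv_lhs => rw [← hSR g]
    rw [hBS, hK]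
    calc ‖B (R g) (S f)‖ ≤ ‖B‖ * ‖R g‖ * ‖S f‖ := B.le_opNorm₂ _ _
      _ ≤ ‖B‖ * (‖R‖ * 1) * ‖S f‖ := by
          apply mul_le_mul_of_nonneg_right _ (norm_nonneg _)
          apply mul_le_mul_of_nonneg_left _ B.opNorm_nonneg
          exact (R.le_opNorm g).trans (mul_le_mul_of_nonneg_left hg1 (norm_nonneg _))
      _ = _ := by ring
  have hanti : AntilipschitzWith K S := S.antilipschitz_of_bound hlow
  have hclr : IsClosed (range S) := hanti.isClosed_range S.uniformContinuous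
  have hsurj : Function.Surjective S := by
    intro x
    have h1 : (range fun y => c • y - T y) = range S := by
      congr 1
      funext y
      exact (hSv y).symm
    rw [h1, hclr.closure_eq] at hd
    have : x ∈ range S := by rw [hd]; trivial
    exact this
  apply hc
  rw [spectrum.mem_resolventSet_iff, ContinuousLinearMap.isUnit_iff_bijective]
  have e : algebraMap ℂ (E →L[ℂ] E) c - T = S := by
    rw [hS, Algebra.algebraMap_eq_smul_one]
  rw [e]
  exact ⟨hanti.injective, hsurj⟩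

theorem t_DUAL : S_DUAL := by
  intro E F _ _ _ _ _ _ B T T' hB0 hBn hBT hL hL'
  by_cases hsc : ∃ c : ℂ, T = c • (1 : E →L[ℂ] E)
  · exact Or.inl hsc
  right
  push Not at hsc
  by_cases e1 : ∃ (z : ℂ) (f : E), T f = z • f ∧ f ≠ 0
  · obtain ⟨z, f, h1, h2⟩ := e1
    exact Or.inl (hyp_of_eigen h2 h1 hsc)
  by_cases e2 : ∃ z : ℂ, closure (range fun y => z • y - T y) ≠ univ
  · obtain ⟨z, h1⟩ := e2
    exact Or.inl (hyp_of_range h1 hsc)
  push Not at e1 e2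
  have hnt : Nontrivial E := by
    by_contra h
    rw [not_nontrivial_iff_subsingleton] at h
    apply hsc 0
    ext1 f
    exact Subsingleton.elim _ _
  obtain ⟨c₁, hc₁⟩ := spectrum.nonempty T
  by_cases hone : spectrum ℂ T = {c₁}
  · exact Or.inr ⟨c₁, hone⟩
  left
  obtain ⟨c₂, hc₂, hne⟩ : ∃ c₂ ∈ spectrum ℂ T, c₂ ≠ c₁ := by
    by_contra hcon
    push Not at hcon
    apply hone
    ext z
    exact ⟨fun hz => hcon z hz, fun hz => by rw [mem_singleton_iff.1 hz]; exact hc₁⟩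
  have hdist : 0 < ‖c₁ - c₂‖ := norm_pos_iff.2 (sub_ne_zero.2 (Ne.symm hne))
  have hρ : 0 < ‖c₁ - c₂‖ / 4 := by positivity
  obtain ⟨x, hx⟩ := not_surj e1 hc₁
  obtain ⟨y, hy⟩ := not_surj' B T T' hB0 hBn hBT e1 hc₂ (e2 c₂)
  obtain ⟨r₁, C₁, X, W₁, k₁, a1, a2, a3, a4, a5, a6⟩ := hL x c₁ _ hρ
  obtain ⟨r₂, C₂, Y, W₂, k₂, b1, b2, b3, b4, b5, b6⟩ := hL' y c₂ _ hρ
  have hX0 : X 0 ≠ 0 := by
    intro h
    rw [h, zero_add] at a5
    apply hx (k₁⁻¹ • W₁)
    rw [map_smul, smul_comm, ← smul_sub, a5, smul_smul, inv_mul_cancel₀ a6, one_smul]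
  have hY0 : Y 0 ≠ 0 := by
    intro h
    rw [h, zero_add] at b5
    apply hy (k₂⁻¹ • W₂)
    rw [map_smul, smul_comm, ← smul_sub, b5, smul_smul, inv_mul_cancel₀ b6, one_smul]
  exact ann B T T' hB0 hBT (by linarith) (by linarith) (by linarith) a3 a4 b3 b4 hX0 hY0

end K1H48.VM
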