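import Pool.Agent.K1H27.VM.Stm

/-!
Job VM-WGT: the exponential weight.
-/

set_option autoImplicit false

namespace K1H48.VM

open MeasureTheory Set Filter Topology
open scoped ENNReal NNReal
open Pool.Agent.K1H27.VM (S_WGT)

section

variable {S : Type} [MeasurableSpace S] (ν : Measure S) [IsFiniteMeasure ν] (τ : S → ℝ)

/-- the distribution function -/
noncomputable def Fd (s : ℝ) : ℝ := (ν {u | τ u < s}).toReal

lemma Fd_mono : Monotone (Fd ν τ) := fun _ _ hab =>
  ENNReal.toReal_mono (measure_ne_top _ _) (measure_mono fun _ hu => lt_of_lt_of_le hu hab)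

omit [IsFiniteMeasure ν] in
lemma Fd_nonneg (s : ℝ) : 0 ≤ Fd ν τ s := ENNReal.toReal_nonneg

variable {τ}

lemma slab (hτ : Measurable τ) {σ t u : ℝ} (hσt : σ ≤ t) (hu : u ≤ Fd ν τ σ) :
    ν {y | σ ≤ τ y ∧ τ y < t} ≤ ENNReal.ofReal (Fd ν τ t - u) := by
  have e : {y | σ ≤ τ y ∧ τ y < t} = {y | τ y < t} \ {y | τ y < σ} := by
    ext y
    constructor
    · rintro ⟨h1, h2⟩
      exact ⟨h2, fun h => absurd h (not_lt.2 h1)⟩
    · rintro ⟨h1, h2⟩
      exact ⟨not_lt.1 h2, h1⟩
  have hsub : {y | τ y < σ} ⊆ {y | τ y < t} := fun y hy => lt_of_lt_of_le hy hσt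
  rw [e, measure_sdiff hsub (measurableSet_lt hτ measurable_const).nullMeasurableSet (measure_ne_top _ _)]
  have h1 : ν {y | τ y < t} = ENNReal.ofReal (Fd ν τ t) := (ENNReal.ofReal_toReal (measure_ne_top _ _)).symm
  have h2 : ν {y | τ y < σ} = ENNReal.ofReal (Fd ν τ σ) := (ENNReal.ofReal_toReal (measure_ne_top _ _)).symm
  rw [h1, h2, ← ENNReal.ofReal_sub _ (Fd_nonneg ν τ σ)]
  exact ENNReal.ofReal_le_ofReal (by linarith)

lemma upper (hτ : Measurable τ) (t u : ℝ) :
    ν {y | u < Fd ν τ (τ y) ∧ τ y < t} ≤ ENNReal.ofReal (Fd ν τ t - u) := by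
  by_cases hJ : ∃ m, m < t ∧ u < Fd ν τ m ∧ ∀ s, u < Fd ν τ s → m ≤ s
  · obtain ⟨m, h1, h2, h3⟩ := hJ
    refine (measure_mono ?_).trans (slab ν hτ h1.le h2.le)
    rintro y ⟨hy1, hy2⟩
    exact ⟨h3 _ hy1, hy2⟩
  · push Not at hJ
    have hsub : {y | u < Fd ν τ (τ y) ∧ τ y < t} ⊆
        ⋃ q : {q : ℚ // (q : ℝ) < t ∧ u < Fd ν τ q}, {y | ((q : ℚ) : ℝ) ≤ τ y ∧ τ y < t} := by
      rintro y ⟨hy1, hy2⟩
      obtain ⟨s, hs1, hs2⟩ := hJ (τ y) hy2 hy1
      obtain ⟨q, hq1, hq2⟩ := exists_rat_btwn hs2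
      rw [mem_iUnion]
      exact ⟨⟨q, hq2.trans hy2, lt_of_lt_of_le hs1 (Fd_mono ν τ hq1.le)⟩, hq2.le, hy2⟩
    refine (measure_mono hsub).trans ?_
    rw [Directed.measure_iUnion]
    · refine iSup_le fun q => slab ν hτ q.2.1.le q.2.2.le
    · intro q q'
      rcases le_total (q : ℚ) (q' : ℚ) with h | h
      · refine ⟨q, Subset.rfl, ?_⟩
        rintro y ⟨hy1, hy2⟩
        exact ⟨le_trans (by exact_mod_cast h) hy1, hy2⟩
      · refine ⟨q', ?_, Subset.rfl⟩
        rintro y ⟨hy1, hy2⟩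
        exact ⟨le_trans (by exact_mod_cast h) hy1, hy2⟩

end

theorem t_WGT : S_WGT := by
  intro S _ ν _ τ hτ c hc t
  have hcne : c ≠ 0 := hc.ne'
  have hFm : Measurable fun y => Fd ν τ (τ y) := (Fd_mono ν τ).measurable.comp hτ
  have hE : MeasurableSet {y | τ y < t} := measurableSet_lt hτ measurable_const
  have hF0 := Fd_nonneg ν τ t
  have hint : ∀ a : ℝ, ∫ s in (0 : ℝ)..a, c * Real.exp (c * s) = Real.exp (c * a) - 1 := by
    intro a
    have h : ∀ x ∈ uIcc (0 : ℝ) a, HasDerivAt (fun s => Real.exp (c * s)) (c * Real.exp (c * x)) x := by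
      intro x _
      have h1 : HasDerivAt (fun s : ℝ => c * s) c x := by simpa using (hasDerivAt_id x).const_mul c
      simpa [mul_comm] using h1.exp
    rw [intervalIntegral.integral_eq_sub_of_hasDerivAt h
      (by apply Continuous.intervalIntegrable; fun_prop)]
    simp
  have hlc := lintegral_comp_eq_lintegral_meas_lt_mul (ν.restrict {y | τ y < t})
    (f := fun y => Fd ν τ (τ y)) (g := fun s => c * Real.exp (c * s))
    (Eventually.of_forall fun y => Fd_nonneg ν τ _) hFm.aemeasurable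
    (fun s _ => by apply Continuous.intervalIntegrable; fun_prop)
    (Eventually.of_forall fun s => by positivity)
  simp only [hint] at hlc
  have h1 : ∫⁻ y in {y | τ y < t}, ENNReal.ofReal (Real.exp (c * Fd ν τ (τ y))) ∂ν =
      ν {y | τ y < t} + ∫⁻ y in {y | τ y < t}, ENNReal.ofReal (Real.exp (c * Fd ν τ (τ y)) - 1) ∂ν := by
    have e : ∀ y, ENNReal.ofReal (Real.exp (c * Fd ν τ (τ y))) =
        1 + ENNReal.ofReal (Real.exp (c * Fd ν τ (τ y)) - 1) := by
      intro y
      have h2 : 0 ≤ Real.exp (c * Fd ν τ (τ y)) - 1 := by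
        have := Real.one_le_exp (mul_nonneg hc.le (Fd_nonneg ν τ (τ y)))
        linarith
      rw [← ENNReal.ofReal_one, ← ENNReal.ofReal_add zero_le_one h2]
      congr 1
      ring
    simp only [e]
    rw [lintegral_add_left measurable_const, lintegral_const, one_mul, Measure.restrict_apply MeasurableSet.univ,
      univ_inter]
  have h2 : ∫⁻ s in Ioi (0 : ℝ), (ν.restrict {y | τ y < t}) {a | s < Fd ν τ (τ a)} *
      ENNReal.ofReal (c * Real.exp (c * s)) ≤
      ∫⁻ s in Ioc (0 : ℝ) (Fd ν τ t), ENNReal.ofReal ((Fd ν τ t - s) * (c * Real.exp (c * s))) := by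
    rw [← lintegral_indicator measurableSet_Ioi, ← lintegral_indicator measurableSet_Ioc]
    refine lintegral_mono fun s => ?_
    by_cases hs0 : s ∈ Ioi (0 : ℝ)
    · rw [indicator_of_mem hs0, Measure.restrict_apply (measurableSet_lt measurable_const hFm)]
      by_cases hs1 : s ≤ Fd ν τ t
      · rw [indicator_of_mem (s := Ioc (0 : ℝ) (Fd ν τ t)) ⟨hs0, hs1⟩, ENNReal.ofReal_mul (p := Fd ν τ t - s) (by linarith)]
        exact mul_le_mul' (upper ν hτ t s) le_rfl
      · rw [indicator_of_notMem (fun h => hs1 h.2)]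
        have h3 : {a | s < Fd ν τ (τ a)} ∩ {y | τ y < t} = ∅ := by
          ext y
          constructor
          · rintro ⟨hy1, hy2⟩
            exact absurd (lt_of_lt_of_le hy1 (Fd_mono ν τ (le_of_lt hy2))) (by linarith)
          · exact fun h => h.elim
        rw [h3, measure_empty, zero_mul]
    · rw [indicator_of_notMem hs0]
      exact zero_le
  have h3 : ∫⁻ s in Ioc (0 : ℝ) (Fd ν τ t), ENNReal.ofReal ((Fd ν τ t - s) * (c * Real.exp (c * s))) =
      ENNReal.ofReal (c⁻¹ * Real.exp (c * Fd ν τ t) - Fd ν τ t - c⁻¹) := by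
    rw [← ofReal_integral_eq_lintegral_ofReal]
    · congr 1
      rw [← intervalIntegral.integral_of_le hF0]
      have h : ∀ x ∈ uIcc (0 : ℝ) (Fd ν τ t), HasDerivAt
          (fun s => (Fd ν τ t - s) * Real.exp (c * s) + c⁻¹ * Real.exp (c * s))
          ((Fd ν τ t - x) * (c * Real.exp (c * x))) x := by
        intro x _
        have g1 : HasDerivAt (fun s : ℝ => c * s) c x := by simpa using (hasDerivAt_id x).const_mul c
        have g2 : HasDerivAt (fun s => Real.exp (c * s)) (Real.exp (c * x) * c) x := g1.exp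
        have g3 : HasDerivAt (fun s : ℝ => Fd ν τ t - s) (-1) x := (hasDerivAt_id x).const_sub _
        refine ((g3.mul g2).add (g2.const_mul c⁻¹)).congr_deriv ?_
        field_simp
        ring
      rw [intervalIntegral.integral_eq_sub_of_hasDerivAt h
        (by apply Continuous.intervalIntegrable; fun_prop)]
      simp
      ring
    · exact (Continuous.integrableOn_Icc (by fun_prop)).mono_set Ioc_subset_Icc_self
    · rw [Filter.EventuallyLE, ae_restrict_iff' measurableSet_Ioc]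
      refine Eventually.of_forall fun s hs => ?_
      show 0 ≤ (Fd ν τ t - s) * (c * Real.exp (c * s))
      exact mul_nonneg (by linarith [hs.2]) (by positivity)
  show ∫⁻ y in {y | τ y < t}, ENNReal.ofReal (Real.exp (c * Fd ν τ (τ y))) ∂ν ≤
    ENNReal.ofReal (c⁻¹ * Real.exp (c * Fd ν τ t))
  rw [h1, hlc]
  have h4 : ν {y | τ y < t} = ENNReal.ofReal (Fd ν τ t) := (ENNReal.ofReal_toReal (measure_ne_top _ _)).symm
  have h5 : 0 ≤ c⁻¹ * Real.exp (c * Fd ν τ t) - Fd ν τ t - c⁻¹ := by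
    have h6 := Real.add_one_le_exp (c * Fd ν τ t)
    have h7 : c⁻¹ * (c * Fd ν τ t + 1) ≤ c⁻¹ * Real.exp (c * Fd ν τ t) :=
      mul_le_mul_of_nonneg_left h6 (inv_nonneg.2 hc.le)
    have h8 : c⁻¹ * (c * Fd ν τ t + 1) = Fd ν τ t + c⁻¹ := by field_simp
    linarith
  refine (add_le_add le_rfl (h2.trans_eq h3)).trans ?_
  rw [h4, ← ENNReal.ofReal_add hF0 h5]
  apply ENNReal.ofReal_le_ofReal
  have : 0 < c⁻¹ := inv_pos.2 hc
  linarith

end K1H48.VM
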